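import Pool.Agent.Q276.CN.Stm

/-!
# Project CN, lemma EX: every class of primitive indefinite forms contains a reduced form
-/

set_option autoImplicit false

namespace Pool.Agent.Q40.CN

open Pool.Agent.Q276.CN

theorem eqv_refl (u : ℤ × ℤ × ℤ) : Eqv u u :=
  ⟨1, 0, 0, 1, by ring, by ring, by ring, by ring⟩

theorem eqv_trans {u v w : ℤ × ℤ × ℤ} (h1 : Eqv u v) (h2 : Eqv v w) : Eqv u w := by
  obtain ⟨p, q, r, s, h, ha, hb, hc⟩ := h1
  obtain ⟨p', q', r', s', h', ha', hb', hc'⟩ := h2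
  refine ⟨p * p' + q * r', p * q' + q * s', r * p' + s * r', r * q' + s * s', ?_, ?_, ?_, ?_⟩
  · have : (p * p' + q * r') * (r * q' + s * s') - (p * q' + q * s') * (r * p' + s * r')
        = (p * s - q * r) * (p' * s' - q' * r') := by ring
    rw [this, h, h']; ring
  · rw [ha', ha, hb, hc]; ring
  · rw [hb', ha, hb, hc]; ring
  · rw [hc', ha, hb, hc]; ring

theorem prim_iff (a b c : ℤ) :
    Int.gcd (Int.gcd a b : ℤ) c = 1 ↔ ∃ x y z : ℤ, a * x + b * y + c * z = 1 := by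
  constructor
  · intro h
    have h1 := Int.gcd_eq_gcd_ab (Int.gcd a b : ℤ) c
    have h2 := Int.gcd_eq_gcd_ab a b
    rw [h] at h1
    refine ⟨Int.gcdA a b * Int.gcdA (Int.gcd a b : ℤ) c,
      Int.gcdB a b * Int.gcdA (Int.gcd a b : ℤ) c, Int.gcdB (Int.gcd a b : ℤ) c, ?_⟩
    have h3 : a * (Int.gcdA a b * Int.gcdA (Int.gcd a b : ℤ) c)
        + b * (Int.gcdB a b * Int.gcdA (Int.gcd a b : ℤ) c)
        = (a * Int.gcdA a b + b * Int.gcdB a b) * Int.gcdA (Int.gcd a b : ℤ) c := by ring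
    rw [h3, ← h2, ← h1]; rfl
  · rintro ⟨x, y, z, h⟩
    have hd : ((Int.gcd (Int.gcd a b : ℤ) c : ℕ) : ℤ) ∣ 1 := by
      have h1 : ((Int.gcd (Int.gcd a b : ℤ) c : ℕ) : ℤ) ∣ (Int.gcd a b : ℤ) := Int.gcd_dvd_left ..
      have h2 : ((Int.gcd (Int.gcd a b : ℤ) c : ℕ) : ℤ) ∣ c := Int.gcd_dvd_right ..
      have h3 : ((Int.gcd a b : ℕ) : ℤ) ∣ a := Int.gcd_dvd_left ..
      have h4 : ((Int.gcd a b : ℕ) : ℤ) ∣ b := Int.gcd_dvd_right ..
      rw [← h]
      exact dvd_add (dvd_add ((h1.trans h3).mul_right x) ((h1.trans h4).mul_right y))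
        (h2.mul_right z)
    have := Int.eq_one_of_dvd_one (by positivity) hd
    exact_mod_cast this

theorem eqv_pf {D : ℕ} {u v : ℤ × ℤ × ℤ} (h1 : Eqv u v) (h2 : PF D u) : PF D v := by
  obtain ⟨p, q, r, s, h, ha, hb, hc⟩ := h1
  obtain ⟨hd, hg⟩ := h2
  refine ⟨?_, ?_⟩
  · have : v.2.1 ^ 2 - 4 * v.1 * v.2.2 = (u.2.1 ^ 2 - 4 * u.1 * u.2.2) * (p * s - q * r) ^ 2 := by
      rw [ha, hb, hc]; ring
    rw [this, h, hd]; ring
  · rw [prim_iff] at hg ⊢
    obtain ⟨x, y, z, hx⟩ := hg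
    refine ⟨s ^ 2 * x - 2 * q * s * y + q ^ 2 * z, -(r * s) * x + (p * s + q * r) * y - p * q * z,
      r ^ 2 * x - 2 * p * r * y + p ^ 2 * z, ?_⟩
    have : v.1 * (s ^ 2 * x - 2 * q * s * y + q ^ 2 * z)
        + v.2.1 * (-(r * s) * x + (p * s + q * r) * y - p * q * z)
        + v.2.2 * (r ^ 2 * x - 2 * p * r * y + p ^ 2 * z)
        = (u.1 * x + u.2.1 * y + u.2.2 * z) * (p * s - q * r) ^ 2 := by
      rw [ha, hb, hc]; ring
    rw [this, hx, h]; ring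

/-- A translate with the middle coefficient in a prescribed half-open interval of length `2 |a|`. -/
theorem tr (a b L : ℤ) (ha : a ≠ 0) :
    ∃ k : ℤ, L < b + 2 * a * k ∧ b + 2 * a * k ≤ L + 2 * |a| := by
  have hm : 0 < 2 * |a| := by have := abs_pos.2 ha; omega
  have e1 : Int.sign a * a = |a| := Int.sign_mul_self_eq_abs a
  refine ⟨Int.sign a * (-((b - L - 1) / (2 * |a|))), ?_⟩
  have e2 : b + 2 * a * (Int.sign a * (-((b - L - 1) / (2 * |a|))))
      = L + 1 + (b - L - 1) % (2 * |a|) := by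
    have e3 := Int.mul_ediv_add_emod (b - L - 1) (2 * |a|)
    have e4 : 2 * a * (Int.sign a * (-((b - L - 1) / (2 * |a|))))
        = -(2 * (Int.sign a * a) * ((b - L - 1) / (2 * |a|))) := by ring
    rw [e4, e1]; linarith
  rw [e2]
  have h1 := Int.emod_nonneg (b - L - 1) hm.ne'
  have h2 := Int.emod_lt_of_pos (b - L - 1) hm
  constructor <;> linarith

theorem eqv_tr (a b c k : ℤ) : Eqv (a, b, c) (a, b + 2 * a * k, a * k ^ 2 + b * k + c) :=
  ⟨1, k, 0, 1, by ring, by simp, by ring, by ring⟩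

theorem eqv_sw (a b c : ℤ) : Eqv (a, b, c) (c, -b, a) :=
  ⟨0, -1, 1, 0, by ring, by simp, by ring, by simp⟩

theorem disc_ne {D : ℕ} (hD : ¬ IsSquare D) {a b c : ℤ} (h : b ^ 2 - 4 * a * c = (D : ℤ)) :
    a ≠ 0 := by
  rintro rfl
  apply hD
  refine ⟨b.natAbs, ?_⟩
  have : ((b.natAbs * b.natAbs : ℕ) : ℤ) = (D : ℤ) := by
    rw [Int.natCast_mul, Int.natAbs_mul_self']
    linarith
  exact_mod_cast this.symm

/-- The final inequality, for `A = |a|`, `C = |c|`. -/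
theorem fin_ineq (A C b s D : ℤ) (hA : 0 < A) (hbs : s < b + 2 * A) (hb : 0 < b) (hb3 : b ≤ s)
    (hAs : 2 * A ≤ s) (hC : 0 < C) (hd : b ^ 2 + 4 * (A * C) = D) (hs1 : s ^ 2 < D)
    (hs2 : D < (s + 1) ^ 2) : C < A + b ∧ A < C + b := by
  have hA4 : (0 : ℤ) ≤ 4 * A := by linarith
  constructor
  · by_contra hcon
    push Not at hcon
    have e1 := mul_le_mul_of_nonneg_left hcon hA4
    have e2 : (b + 2 * A) ^ 2 ≤ D := by
      have : (b + 2 * A) ^ 2 = b ^ 2 + 4 * A * (A + b) := by ring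
      rw [this]; linarith
    have e3 : (s + 1) ^ 2 ≤ (b + 2 * A) ^ 2 := by
      apply pow_le_pow_left₀ <;> linarith
    linarith
  · by_contra hcon
    push Not at hcon
    have e1 := mul_le_mul_of_nonneg_left hcon hA4
    have e2 : D ≤ (2 * A - b) ^ 2 := by
      have : (2 * A - b) ^ 2 = b ^ 2 + 4 * A * A - 4 * A * b := by ring
      rw [this]; linarith
    have e3 : (2 * A - b) ^ 2 ≤ s ^ 2 := by
      apply pow_le_pow_left₀ <;> linarith
    linarith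

/-- Lemma EX of project CN. -/
theorem ex : StmtEX := by
  intro D hD t ht
  classical
  have hex : ∃ n : ℕ, ∃ u : ℤ × ℤ × ℤ, Eqv t u ∧ u.1.natAbs = n := ⟨_, t, eqv_refl t, rfl⟩
  obtain ⟨⟨a, b, c⟩, h0, hn⟩ := Nat.find_spec hex
  have hmin : ∀ u : ℤ × ℤ × ℤ, Eqv t u → |a| ≤ |u.1| := by
    intro u hu
    have := Nat.find_min' hex ⟨u, hu, rfl⟩
    rw [← hn] at this
    have h2 : a.natAbs ≤ u.1.natAbs := this
    rw [Int.abs_eq_natAbs, Int.abs_eq_natAbs]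
    exact_mod_cast h2
  have hp0 := eqv_pf h0 ht
  have hd0 : b ^ 2 - 4 * a * c = (D : ℤ) := hp0.1
  have ha : a ≠ 0 := disc_ne hD hd0
  have hA : 0 < |a| := abs_pos.2 ha
  have hD0 : (0 : ℤ) ≤ (D : ℤ) := Int.natCast_nonneg D
  have hsq : |a| ^ 2 = a ^ 2 := sq_abs a
  -- the first translate
  obtain ⟨k, hk1, hk2⟩ := tr a b (-|a|) ha
  have h1 : Eqv t (a, b + 2 * a * k, a * k ^ 2 + b * k + c) := eqv_trans h0 (eqv_tr a b c k)
  have hd1 := (eqv_pf h1 ht).1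
  have hc1 := hmin _ (eqv_trans h1 (eqv_sw a (b + 2 * a * k) (a * k ^ 2 + b * k + c)))
  simp only at hd1 hc1
  generalize b + 2 * a * k = b1 at hk1 hk2 h1 hd1 hc1
  generalize a * k ^ 2 + b * k + c = c1 at h1 hd1 hc1
  have hb1 : b1 ^ 2 ≤ |a| ^ 2 := by
    apply sq_le_sq'
    · linarith
    · linarith
  have hac : |a| * |c1| = |a * c1| := (abs_mul a c1).symm
  have hge : |a| ^ 2 ≤ |a * c1| := by
    rw [← hac, sq]; exact mul_le_mul_of_nonneg_left hc1 hA.le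
  have hneg : a * c1 < 0 := by
    by_contra hcon
    push Not at hcon
    rw [abs_of_nonneg hcon] at hge
    have : 0 < |a| ^ 2 := by positivity
    nlinarith
  have h4 : 4 * |a| ^ 2 ≤ (D : ℤ) := by
    rw [abs_of_neg hneg] at hge
    nlinarith [sq_nonneg b1]
  -- the square root
  obtain ⟨s, hs⟩ : ∃ s : ℤ, s = (Nat.sqrt D : ℤ) := ⟨_, rfl⟩
  have hs0 : 0 ≤ s := by rw [hs]; exact Int.natCast_nonneg _
  have hs1 : s ^ 2 < (D : ℤ) := by
    have h5 : Nat.sqrt D * Nat.sqrt D ≤ D := Nat.sqrt_le D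
    have h6 : Nat.sqrt D * Nat.sqrt D ≠ D := fun h => hD ⟨_, h.symm⟩
    have h7 : Nat.sqrt D * Nat.sqrt D < D := lt_of_le_of_ne h5 h6
    rw [hs, sq]; exact_mod_cast h7
  have hs2 : (D : ℤ) < (s + 1) ^ 2 := by
    have h5 : D < (Nat.sqrt D + 1) * (Nat.sqrt D + 1) := Nat.lt_succ_sqrt D
    rw [hs, sq]; exact_mod_cast h5
  have hs3 : 2 * |a| ≤ s := by
    by_contra hcon
    push Not at hcon
    nlinarith
  -- the second translate
  obtain ⟨m, hm1, hm2⟩ := tr a b1 (s - 2 * |a|) ha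
  have h2 : Eqv t (a, b1 + 2 * a * m, a * m ^ 2 + b1 * m + c1) :=
    eqv_trans h1 (eqv_tr a b1 c1 m)
  have hp2 := eqv_pf h2 ht
  have hd2 := hp2.1
  simp only at hd2
  refine ⟨_, h2, hp2, ?_⟩
  generalize b1 + 2 * a * m = b2 at hm1 hm2 h2 hd2
  generalize a * m ^ 2 + b1 * m + c1 = c2 at h2 hd2
  have hb2 : 0 < b2 := by linarith
  have hb3 : b2 ≤ s := by linarith
  have hb4 : b2 ^ 2 ≤ s ^ 2 := by nlinarith
  have hneg2 : a * c2 < 0 := by nlinarith
  refine ⟨hb2, hneg2, ?_⟩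
  show |a + c2| < b2
  have hd3 : b2 ^ 2 + 4 * (|a| * |c2|) = (D : ℤ) := by
    rw [← abs_mul, abs_of_neg hneg2]; linarith
  have hc2 : 0 < |c2| := by
    rw [abs_pos]; rintro rfl; simp at hneg2
  obtain ⟨f1, f2⟩ := fin_ineq |a| |c2| b2 s D hA (by linarith) hb2 hb3 hs3 hc2 hd3 hs1 hs2
  rcases lt_trichotomy a 0 with h | h | h
  · have h5 : 0 < c2 := by
      by_contra hcon
      push Not at hcon
      have := mul_nonneg_of_nonpos_of_nonpos h.le hcon
      linarith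
    rw [abs_of_neg h, abs_of_pos h5] at f1 f2
    rw [abs_lt]
    constructor <;> linarith
  · exact absurd h ha
  · have h5 : c2 < 0 := by
      by_contra hcon
      push Not at hcon
      have := mul_nonneg h.le hcon
      linarith
    rw [abs_of_pos h, abs_of_neg h5] at f1 f2
    rw [abs_lt]
    constructor <;> linarith

end Pool.Agent.Q40.CN
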